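import Pool.Agent.Work.MP_db9399_cg_helper21.KER

/-!
# Block KERX (helper48), part 1: energy of the walk, level sets, heat kernel on a subset
-/

set_option autoImplicit false
set_option linter.unusedSectionVars false

namespace Pool.Agent.Work.MP_db9399_sg.helper48

open Finset Classical
open Pool.Agent.Work.MP_db9399_all (nb)
open Pool.Agent.Work.MP_db9399_cg.helper21
open Pool.Agent.Work.MP_db9399_as.helper6

universe u

/-- layer cake, all the levels below `M` -/
theorem layer2 {V : Type u} [Fintype V] (q : V → V → ℝ) (hq0 : ∀ u w, 0 ≤ q u w) (κ : ℝ)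
    (hκ : 0 ≤ κ) :
    ∀ (n : ℕ) (g : V → ℝ) (M : ℝ), (∀ u, 0 ≤ g u) → (univ.filter fun u => 0 < g u).card = n →
      (∀ τ, 0 ≤ τ → τ < M → κ ≤ ∑ u ∈ univ.filter (fun u => τ < g u),
        ∑ w ∈ univ \ univ.filter (fun u => τ < g u), q u w) →
      κ * M ≤ ∑ u, ∑ w, q u w * max (g u - g w) 0 := by
  intro n
  induction n using Nat.strong_induction_on with
  | _ n ih =>
    intro g M hg hn hexp
    have hnn : 0 ≤ ∑ u, ∑ w, q u w * max (g u - g w) 0 :=
      Finset.sum_nonneg fun u _ => Finset.sum_nonneg fun w _ =>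
        mul_nonneg (hq0 u w) (le_max_right _ _)
    rcases le_or_gt M 0 with hM | hM
    · exact le_trans (mul_nonpos_of_nonneg_of_nonpos hκ hM) hnn
    set T := univ.filter fun u => 0 < g u with hT
    have hout : ∀ u, u ∉ T → g u = 0 := by
      intro u hu
      have : ¬ 0 < g u := by simpa [hT] using hu
      exact le_antisymm (not_lt.mp this) (hg u)
    have h0 := hexp 0 le_rfl hM
    rw [← hT] at h0
    rcases T.eq_empty_or_nonempty with hTe | hTn
    · rw [hTe, Finset.sum_empty] at h0
      have : κ = 0 := le_antisymm h0 hκ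
      rw [this, zero_mul]
      exact hnn
    · obtain ⟨u0, hu0, hmin⟩ := T.exists_min_image g hTn
      set m := g u0 with hm
      have hm0 : 0 < m := by
        have := hu0
        rw [hT, mem_filter] at this
        exact this.2
      set g' : V → ℝ := fun u => if u ∈ T then g u - m else 0 with hg'
      have hg'0 : ∀ u, 0 ≤ g' u := by
        intro u
        simp only [hg']
        split_ifs with h
        · exact sub_nonneg.mpr (hmin u h)
        · exact le_rfl
      have hsub : (univ.filter fun u => 0 < g' u) ⊆ T.erase u0 := by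
        intro u hu
        rw [mem_filter] at hu
        have hu' := hu.2
        simp only [hg'] at hu'
        split_ifs at hu' with h
        · refine mem_erase.mpr ⟨?_, h⟩
          rintro rfl
          simp [hm] at hu'
        · exact absurd hu' (lt_irrefl _)
      have hlt : (univ.filter fun u => 0 < g' u).card < n := by
        rw [← hn]
        exact lt_of_le_of_lt (card_le_card hsub) (card_erase_lt_of_mem hu0)
      have hlev : ∀ τ, 0 ≤ τ → (univ.filter fun u => τ < g' u) =
          univ.filter fun u => τ + m < g u := by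
        intro τ hτ
        ext u
        simp only [mem_filter, mem_univ, true_and, hg']
        by_cases hu : u ∈ T
        · rw [if_pos hu]
          constructor <;> intro h <;> linarith
        · rw [if_neg hu, hout u hu]
          constructor <;> intro h <;> linarith
      have hind := ih _ hlt g' (M - m) hg'0 rfl (by
        intro τ hτ hτM
        rw [hlev τ hτ]
        exact hexp (τ + m) (by linarith) (by linarith))
      have hpt : ∀ u w, max (g u - g w) 0
          = (if u ∈ T ∧ w ∉ T then m else 0) + max (g' u - g' w) 0 := by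
        intro u w
        by_cases hu : u ∈ T <;> by_cases hw : w ∈ T
        · simp [hg', hu, hw]
        · have h1 : g w = 0 := hout w hw
          have h2 : m ≤ g u := hmin u hu
          simp only [hg', hu, hw, if_true, if_false, not_false_eq_true, and_self, h1, sub_zero]
          rw [max_eq_left (by linarith), max_eq_left (by linarith)]
          ring
        · have h1 : g u = 0 := hout u hu
          have h2 : m ≤ g w := hmin w hw
          simp only [hg', hu, hw, if_true, if_false, h1, false_and, zero_sub, zero_add]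
          rw [max_eq_right (by linarith), max_eq_right (by linarith)]
        · have h1 : g u = 0 := hout u hu
          have h2 : g w = 0 := hout w hw
          simp [hg', hu, hw, h1, h2]
      have hR : ∑ u, ∑ w, q u w * max (g u - g w) 0
          = m * (∑ u ∈ T, ∑ w ∈ univ \ T, q u w) + ∑ u, ∑ w, q u w * max (g' u - g' w) 0 := by
        have h1 : ∀ u, ∑ w, q u w * max (g u - g w) 0
            = ∑ w, (if u ∈ T ∧ w ∉ T then m * q u w else 0) + ∑ w, q u w * max (g' u - g' w) 0 := by
          intro u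
          rw [← Finset.sum_add_distrib]
          refine Finset.sum_congr rfl fun w _ => ?_
          rw [hpt u w, mul_add]
          congr 1
          split_ifs <;> ring
        calc ∑ u, ∑ w, q u w * max (g u - g w) 0
            = ∑ u, (∑ w, (if u ∈ T ∧ w ∉ T then m * q u w else 0)
              + ∑ w, q u w * max (g' u - g' w) 0) := Finset.sum_congr rfl fun u _ => h1 u
          _ = ∑ u, ∑ w, (if u ∈ T ∧ w ∉ T then m * q u w else 0)
              + ∑ u, ∑ w, q u w * max (g' u - g' w) 0 := Finset.sum_add_distrib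
          _ = m * (∑ u ∈ T, ∑ w ∈ univ \ T, q u w) + ∑ u, ∑ w, q u w * max (g' u - g' w) 0 := by
            congr 1
            have h2 : ∀ u, ∑ w, (if u ∈ T ∧ w ∉ T then m * q u w else 0)
                = if u ∈ T then m * ∑ w ∈ univ \ T, q u w else 0 := by
              intro u
              by_cases hu : u ∈ T
              · simp only [hu, true_and, if_true]
                rw [← Finset.sum_filter, Finset.mul_sum]
                apply Finset.sum_congr _ fun _ _ => rfl
                ext w
                simp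
              · simp [hu]
            simp_rw [h2]
            rw [Finset.sum_ite_mem, univ_inter, Finset.mul_sum]
      rw [hR]
      have h5 : m * κ ≤ m * (∑ u ∈ T, ∑ w ∈ univ \ T, q u w) :=
        mul_le_mul_of_nonneg_left h0 hm0.le
      nlinarith

section Walk

variable {V : Type u} [Fintype V] (S : SimpleGraph V) (R : ℕ)

/-- Dirichlet form of the two step walk -/
theorem dir_le (hdeg : ∀ u, S.degree u ≤ R) (hR : 0 < R) (f : V → ℝ) :
    ∑ u, ∑ w, qk S R u w * (f u - f w) ^ 2 ≤ 2 * (nsq f - nsq (wk S R f)) := by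
  have hrow := qk_row S R hdeg hR
  have hsym := qk_symm S R
  rw [nsq_wk S R hR]
  have h1 : ∑ u, ∑ w, qk S R u w * (f u - f w) ^ 2
      = ∑ u, ∑ w, qk S R u w * f u ^ 2 + ∑ u, ∑ w, qk S R u w * f w ^ 2
        - 2 * ∑ u, f u * ∑ w, qk S R u w * f w := by
    rw [Finset.mul_sum, ← Finset.sum_add_distrib, ← Finset.sum_sub_distrib]
    refine Finset.sum_congr rfl fun u _ => ?_
    rw [Finset.mul_sum, Finset.mul_sum, ← Finset.sum_add_distrib, ← Finset.sum_sub_distrib]
    refine Finset.sum_congr rfl fun w _ => ?_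
    ring
  have h7 : ∑ u, ∑ w, qk S R u w * f u ^ 2 ≤ nsq f := by
    unfold nsq
    refine Finset.sum_le_sum fun u _ => ?_
    rw [← Finset.sum_mul]
    calc (∑ w, qk S R u w) * f u ^ 2 ≤ 1 * f u ^ 2 := by gcongr; exact hrow u
      _ = f u ^ 2 := one_mul _
  have h8 : ∑ u, ∑ w, qk S R u w * f w ^ 2 = ∑ u, ∑ w, qk S R u w * f u ^ 2 := by
    rw [Finset.sum_comm]
    refine Finset.sum_congr rfl fun u _ => Finset.sum_congr rfl fun w _ => ?_
    rw [hsym w u]
  rw [h1, h8]
  linarith

/-- the energy decreases -/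
theorem en_anti (f : V → ℝ) :
    nsq (wk S R f) - nsq (wk S R (wk S R f)) ≤ nsq f - nsq (wk S R f) := by
  have h1 : nsq (wk S R f) = ∑ u, f u * wk S R (wk S R f) u := by
    rw [wk_adj]
    unfold nsq
    refine Finset.sum_congr rfl fun u _ => ?_
    ring
  have h2 : 2 * nsq (wk S R f) ≤ nsq f + nsq (wk S R (wk S R f)) := by
    rw [h1]
    unfold nsq
    rw [Finset.mul_sum, ← Finset.sum_add_distrib]
    refine Finset.sum_le_sum fun u _ => ?_
    nlinarith [sq_nonneg (f u - wk S R (wk S R f) u)]
  linarith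

theorem en_hk (v : V) (T : ℕ) : ∀ k : ℕ,
    (k : ℝ) * (nsq (hk S R v (T + k)) - nsq (hk S R v (T + k + 1))) ≤
      nsq (hk S R v T) - nsq (hk S R v (T + k)) := by
  intro k
  induction k with
  | zero => simp
  | succ k ih =>
    have h1 : nsq (hk S R v (T + k + 1)) - nsq (hk S R v (T + k + 1 + 1)) ≤
        nsq (hk S R v (T + k)) - nsq (hk S R v (T + k + 1)) := en_anti S R (hk S R v (T + k))
    rw [show T + (k + 1) = T + k + 1 by ring]
    push_cast
    have h2 : (k : ℝ) * (nsq (hk S R v (T + k + 1)) - nsq (hk S R v (T + k + 1 + 1))) ≤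
        (k : ℝ) * (nsq (hk S R v (T + k)) - nsq (hk S R v (T + k + 1))) :=
      mul_le_mul_of_nonneg_left h1 (Nat.cast_nonneg _)
    linarith

/-- small energy gives a level with a small boundary -/
theorem level (q : V → V → ℝ) (hq0 : ∀ u w, 0 ≤ q u w) (hq1 : ∀ u, ∑ w, q u w ≤ 1)
    (f : V → ℝ) (hf : ∀ u, 0 ≤ f u) (hf1 : ∑ u, f u ≤ 1) (E s κ : ℝ) (hs : 0 < s) (hκ : 0 < κ)
    (hE : ∑ u, ∑ w, q u w * (f u - f w) ^ 2 ≤ E) (hlt : E / s < (κ * s) ^ 2) :
    ∃ τ, s ≤ τ ∧ τ < 2 * s ∧ (∑ u ∈ univ.filter (fun u => τ < f u),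
        ∑ w ∈ univ \ univ.filter (fun u => τ < f u), q u w) ≤ κ := by
  by_contra hcon
  push Not at hcon
  set h : V → ℝ := fun u => min (max (f u - s) 0) s with hh
  have hh0 : ∀ u, 0 ≤ h u := fun u => le_min (le_max_right _ _) hs.le
  have hlev : ∀ τ, 0 ≤ τ → τ < s → (univ.filter fun u => τ < h u) =
      univ.filter fun u => τ + s < f u := by
    intro τ hτ hτs
    ext u
    simp only [mem_filter, mem_univ, true_and, hh, lt_min_iff, lt_max_iff]
    constructor
    · rintro ⟨h1 | h1, -⟩
      · linarith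
      · exact absurd h1 (not_lt.mpr hτ)
    · intro h1
      exact ⟨Or.inl (by linarith), hτs⟩
  have h1 := layer2 q hq0 κ hκ.le _ h s hh0 rfl (by
    intro τ hτ hτs
    rw [hlev τ hτ hτs]
    exact (hcon (τ + s) (by linarith) (by linarith)).le)
  -- the support
  have hcard : ((univ.filter fun u => 0 < h u).card : ℝ) ≤ 1 / s := by
    rw [hlev 0 le_rfl hs, le_div_iff₀ hs]
    calc ((univ.filter fun u => 0 + s < f u).card : ℝ) * s
        = ∑ u ∈ univ.filter (fun u => 0 + s < f u), s := by rw [Finset.sum_const, nsmul_eq_mul]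
      _ ≤ ∑ u ∈ univ.filter (fun u => 0 + s < f u), f u := by
          refine Finset.sum_le_sum fun u hu => ?_
          rw [mem_filter] at hu
          linarith [hu.2]
      _ ≤ ∑ u, f u := Finset.sum_le_sum_of_subset_of_nonneg (filter_subset _ _)
          fun u _ _ => hf u
      _ ≤ 1 := hf1
  have hlip : ∀ u w, |h u - h w| ≤ |f u - f w| := by
    intro u w
    have e1 : |max (f u - s) 0 - max (f w - s) 0| ≤ |f u - f w| := by
      have := abs_max_sub_max_le_abs (f u - s) (f w - s) 0
      simpa using this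
    have e2 : |min (max (f u - s) 0) s - min (max (f w - s) 0) s| ≤
        |max (f u - s) 0 - max (f w - s) 0| := by
      have := abs_min_sub_min_le_max (max (f u - s) 0) s (max (f w - s) 0) s
      simpa using this
    exact le_trans e2 e1
  -- Cauchy-Schwarz
  have h4 : (∑ u, ∑ w, q u w * max (h u - h w) 0) ^ 2
      ≤ (∑ u, ∑ w, q u w * (f u - f w) ^ 2) * (∑ u, ∑ w, q u w * (if 0 < h u then 1 else 0)) := by
    have hcs := Finset.sum_mul_sq_le_sq_mul_sq (univ : Finset (V × V))
      (fun p => Real.sqrt (q p.1 p.2) * max (h p.1 - h p.2) 0)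
      (fun p => Real.sqrt (q p.1 p.2) * (if 0 < h p.1 then 1 else 0))
    have e1 : ∑ p : V × V, (Real.sqrt (q p.1 p.2) * max (h p.1 - h p.2) 0)
        * (Real.sqrt (q p.1 p.2) * (if 0 < h p.1 then 1 else 0)) =
        ∑ u, ∑ w, q u w * max (h u - h w) 0 := by
      rw [← Finset.univ_product_univ, Finset.sum_product]
      refine Finset.sum_congr rfl fun u _ => Finset.sum_congr rfl fun w _ => ?_
      have hs := Real.mul_self_sqrt (hq0 u w)
      by_cases hu : 0 < h u
      · simp only [hu, if_true]
        calc Real.sqrt (q u w) * max (h u - h w) 0 * (Real.sqrt (q u w) * 1)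
            = (Real.sqrt (q u w) * Real.sqrt (q u w)) * max (h u - h w) 0 := by ring
          _ = q u w * max (h u - h w) 0 := by rw [hs]
      · simp only [hu, if_false]
        have h5 : h u = 0 := le_antisymm (not_lt.mp hu) (hh0 u)
        rw [max_eq_right (by linarith [hh0 w])]
        ring
    have e2 : ∑ p : V × V, (Real.sqrt (q p.1 p.2) * max (h p.1 - h p.2) 0) ^ 2 ≤
        ∑ u, ∑ w, q u w * (f u - f w) ^ 2 := by
      rw [← Finset.univ_product_univ, Finset.sum_product]
      refine Finset.sum_le_sum fun u _ => Finset.sum_le_sum fun w _ => ?_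
      rw [mul_pow, Real.sq_sqrt (hq0 u w)]
      refine mul_le_mul_of_nonneg_left ?_ (hq0 u w)
      rw [← sq_abs (f u - f w)]
      apply pow_le_pow_left₀ (le_max_right _ _)
      refine le_trans ?_ (hlip u w)
      exact max_le (le_abs_self _) (abs_nonneg _)
    have e3 : ∑ p : V × V, (Real.sqrt (q p.1 p.2) * (if 0 < h p.1 then 1 else 0)) ^ 2
        = ∑ u, ∑ w, q u w * (if 0 < h u then 1 else 0) := by
      rw [← Finset.univ_product_univ, Finset.sum_product]
      refine Finset.sum_congr rfl fun u _ => Finset.sum_congr rfl fun w _ => ?_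
      rw [mul_pow, Real.sq_sqrt (hq0 u w)]
      congr 1
      split_ifs <;> norm_num
    rw [e1, e3] at hcs
    refine le_trans hcs (mul_le_mul_of_nonneg_right e2 ?_)
    refine Finset.sum_nonneg fun u _ => Finset.sum_nonneg fun w _ => mul_nonneg (hq0 u w) ?_
    split_ifs <;> norm_num
  have h5 : ∑ u, ∑ w, q u w * (if 0 < h u then 1 else 0) ≤ 1 / s := by
    refine le_trans ?_ hcard
    rw [Finset.card_filter]
    push_cast
    refine Finset.sum_le_sum fun u _ => ?_
    rw [← Finset.sum_mul]
    split_ifs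
    · rw [mul_one]
      exact hq1 u
    · simp
  have hD0 : 0 ≤ ∑ u, ∑ w, q u w * (f u - f w) ^ 2 :=
    Finset.sum_nonneg fun u _ => Finset.sum_nonneg fun w _ => mul_nonneg (hq0 u w) (sq_nonneg _)
  have h6 : (κ * s) ^ 2 ≤ E / s := by
    calc (κ * s) ^ 2 ≤ (∑ u, ∑ w, q u w * max (h u - h w) 0) ^ 2 :=
          pow_le_pow_left₀ (by positivity) h1 2
      _ ≤ (∑ u, ∑ w, q u w * (f u - f w) ^ 2) *
          (∑ u, ∑ w, q u w * (if 0 < h u then 1 else 0)) := h4
      _ ≤ (∑ u, ∑ w, q u w * (f u - f w) ^ 2) * (1 / s) := mul_le_mul_of_nonneg_left h5 hD0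
      _ ≤ E * (1 / s) := mul_le_mul_of_nonneg_right hE (by positivity)
      _ = E / s := by ring
  linarith

/-- Nash step for functions supported in `A` -/
theorem nashA (q : V → V → ℝ) (hq0 : ∀ u w, 0 ≤ q u w) (hqs : ∀ u w, q u w = q w u)
    (hq1 : ∀ u, ∑ w, q u w ≤ 1) (A : Finset V) (hqA : ∀ u w, w ∉ A → q u w = 0) (N : ℕ) (c : ℝ)
    (hc : 0 ≤ c)
    (hexp : ∀ T : Finset V, T ⊆ A → T.card ≤ N → c * T.card ≤ ∑ u ∈ T, ∑ w ∈ univ \ T, q u w)
    (f : V → ℝ) (hf : ∀ u, 0 ≤ f u) (hfA : ∀ u, u ∉ A → f u = 0) (hf1 : ∑ u, f u ≤ 1)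
    (hpos : 0 < nsq f) (hN : 4 / nsq f ≤ N) :
    ∑ u, f u * ∑ w, q u w * f w ≤ (1 - c ^ 2 / 4) * nsq f := by
  have hsum : ∀ F : V → ℝ, (∀ u, u ∉ A → F u = 0) → ∑ u, F u = ∑ u : {x // x ∈ A}, F u := by
    intro F hF
    rw [Finset.sum_coe_sort A F]
    exact (Finset.sum_subset (subset_univ A) fun u _ hu => hF u hu).symm
  have e1 : nsq f = nsq (fun u : {x // x ∈ A} => f u) := by
    unfold nsq
    rw [hsum (fun u => f u ^ 2) fun u hu => by simp [hfA u hu]]
  have e2 : ∑ u, f u * ∑ w, q u w * f w =
      ∑ u : {x // x ∈ A}, f u * ∑ w : {x // x ∈ A}, q u w * f w := by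
    rw [hsum (fun u => f u * ∑ w, q u w * f w) fun u hu => by simp [hfA u hu]]
    refine Finset.sum_congr rfl fun u _ => ?_
    rw [hsum (fun w => q u w * f w) fun w hw => by simp [hfA w hw]]
  rw [e2, e1]
  refine nash (fun u w : {x // x ∈ A} => q u w) (fun u w => hq0 _ _) (fun u w => hqs _ _) ?_ N c hc
    ?_ (fun u => f u) (fun u => hf _) ?_ (by rw [← e1]; exact hpos) (by rw [← e1]; exact hN)
  · intro u
    rw [← hsum (fun w => q u w) fun w hw => hqA _ _ hw]
    exact hq1 u
  · intro T hT
    obtain ⟨T', hT'⟩ : ∃ T' : Finset V, T' = T.map (Function.Embedding.subtype _) := ⟨_, rfl⟩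
    have hT'A : T' ⊆ A := by
      intro x hx
      rw [hT', mem_map] at hx
      obtain ⟨y, -, rfl⟩ := hx
      exact y.2
    have hcard : T'.card = T.card := by rw [hT', card_map]
    have h1 := hexp T' hT'A (by rw [hcard]; exact hT)
    rw [hcard] at h1
    refine le_trans h1 (le_of_eq ?_)
    rw [hT', Finset.sum_map]
    refine Finset.sum_congr rfl fun u _ => ?_
    change ∑ w ∈ univ \ T.map (Function.Embedding.subtype _), q (u : V) w = _
    have h2 : ∑ w ∈ univ \ T.map (Function.Embedding.subtype _), q (u : V) w =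
        ∑ w ∈ (univ \ T).map (Function.Embedding.subtype _), q (u : V) w := by
      symm
      apply Finset.sum_subset
      · intro x hx
        rw [mem_map] at hx
        obtain ⟨y, hy, rfl⟩ := hx
        rw [mem_sdiff] at hy ⊢
        refine ⟨mem_univ _, fun h => hy.2 ?_⟩
        rw [mem_map] at h
        obtain ⟨z, hz, hzy⟩ := h
        have : z = y := Subtype.ext hzy
        rwa [← this]
      · intro x hx hx'
        apply hqA
        intro hxA
        apply hx'
        rw [mem_map]
        refine ⟨⟨x, hxA⟩, ?_, rfl⟩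
        rw [mem_sdiff]
        refine ⟨mem_univ _, fun h => ?_⟩
        rw [mem_sdiff] at hx
        exact hx.2 (mem_map.2 ⟨_, h, rfl⟩)
    rw [h2, Finset.sum_map]
    rfl
  · rw [← hsum f hfA]
    exact hf1

theorem hk_out (A : Finset V) (sup : ∀ v w, S.Adj v w → v ∈ A) (v : V) (j : ℕ) (u : V)
    (hu : u ∉ A) : hk S R v (j + 1) u = 0 := by
  change wk S R (hk S R v j) u = 0
  unfold wk
  have h1 : S.neighborFinset u = ∅ := by
    ext w
    simp only [SimpleGraph.mem_neighborFinset, Finset.notMem_empty, iff_false]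
    exact fun h => hu (sup u w h)
  rw [h1]
  simp

theorem qk_out (A : Finset V) (sup : ∀ v w, S.Adj v w → v ∈ A) (u w : V) (hw : w ∉ A) :
    qk S R u w = 0 := by
  unfold qk
  have h1 : S.neighborFinset w = ∅ := by
    ext x
    simp only [SimpleGraph.mem_neighborFinset, Finset.notMem_empty, iff_false]
    exact fun h => hw (sup w x h)
  rw [h1]
  simp

/-- heat kernel bound, sets in `A` -/
theorem heatA (hdeg : ∀ u, S.degree u ≤ R) (hR : 0 < R) (A : Finset V)
    (sup : ∀ v w, S.Adj v w → v ∈ A) (N : ℕ) (c : ℝ) (hc : 0 ≤ c) (hc2 : c ^ 2 ≤ 4)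
    (hexp : ∀ T : Finset V, T ⊆ A → T.card ≤ N →
      c * T.card ≤ ∑ u ∈ T, ∑ w ∈ univ \ T, qk S R u w)
    (s : ℝ) (hs : 0 < s) (hN : 4 / s ≤ N) (v : V) (j : ℕ) :
    nsq (hk S R v (j + 1)) ≤ max s ((1 - c ^ 2 / 4) ^ j * (1 / (R : ℝ))) := by
  induction j with
  | zero =>
    refine le_trans (nsq_hk_one S R hdeg hR v) ?_
    rw [pow_zero, one_mul]
    exact le_max_right _ _
  | succ j ih =>
    rcases le_or_gt (nsq (hk S R v (j + 1))) s with hle | hgt
    · exact le_trans (le_trans (nsq_hk_anti S R hdeg hR v (j + 1)) hle) (le_max_left _ _)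
    · have hpos : 0 < nsq (hk S R v (j + 1)) := lt_trans hs hgt
      have h1 := nashA (qk S R) (qk_nonneg S R) (qk_symm S R) (qk_row S R hdeg hR) A
        (qk_out S R A sup) N c hc hexp
        (hk S R v (j + 1)) (hk_nonneg S R v (j + 1)) (hk_out S R A sup v j)
        (hk_sum S R hdeg hR v (j + 1)) hpos
        (le_trans (div_le_div_of_nonneg_left (by norm_num) hs hgt.le) hN)
      have h2 : nsq (hk S R v (j + 1 + 1))
          = ∑ u, hk S R v (j + 1) u * ∑ w, qk S R u w * hk S R v (j + 1) w :=
        nsq_wk S R hR _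
      rw [h2]
      refine le_trans h1 (le_trans ?_ (le_max_right _ _))
      have h3 : nsq (hk S R v (j + 1)) ≤ (1 - c ^ 2 / 4) ^ j * (1 / (R : ℝ)) := by
        rcases le_max_iff.mp ih with h | h
        · exact absurd h (not_le.mpr hgt)
        · exact h
      calc (1 - c ^ 2 / 4) * nsq (hk S R v (j + 1))
          ≤ (1 - c ^ 2 / 4) * ((1 - c ^ 2 / 4) ^ j * (1 / (R : ℝ))) := by
            apply mul_le_mul_of_nonneg_left h3
            linarith
        _ = (1 - c ^ 2 / 4) ^ (j + 1) * (1 / (R : ℝ)) := by ring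

end Walk

end Pool.Agent.Work.MP_db9399_sg.helper48
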