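import Pool.Agent.Work.MP_db9399_sg.Interface
import Pool.Agent.Work.MP_db9399_sg_helper48.EN

/-!
# Block KERX (helper48): the kernel lemma without killing
-/

set_option autoImplicit false
set_option linter.unusedSectionVars false

namespace Pool.Agent.Work.MP_db9399_sg.helper48

open Finset Classical
open Pool.Agent.Work.MP_db9399_all (nb)
open Pool.Agent.Work.MP_db9399_en (HH wlk)
open Pool.Agent.Work.MP_db9399_cg (cdg pk sx sp)
open Pool.Agent.Work.MP_db9399_cg.helper21
open Pool.Agent.Work.MP_db9399_as.helper6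

universe u

section Basic

variable {V : Type u} [Fintype V] (S : SimpleGraph V) (r : ℕ)

theorem pk_hkR (hr : 1 ≤ r) (R : ℕ) (hR : 0 < R) (j : ℕ) (v x : V) :
    pk S r j v x = ((R : ℝ) / r) ^ j * hk S R x j v := by
  have hr' : (0 : ℝ) < r := by exact_mod_cast hr
  have hR' : (0 : ℝ) < (R : ℝ) := by exact_mod_cast hR
  induction j generalizing v with
  | zero =>
    rw [pk_zero, pow_zero, one_mul]
    change _ = (Pi.single x 1 : V → ℝ) v
    rw [Pi.single_apply]
  | succ j ih =>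
    rw [pk_succ]
    simp_rw [ih]
    have h1 : hk S R x (j + 1) v
        = (1 / (R : ℝ)) * ∑ w ∈ S.neighborFinset v, hk S R x j w := rfl
    rw [h1, nb_eq, ← Finset.mul_sum, pow_succ]
    have h2 : (R : ℝ) / r * (1 / (R : ℝ)) = 1 / r := by
      field_simp
    calc ((R : ℝ) / r) ^ j * (∑ w ∈ S.neighborFinset v, hk S R x j w) / r
        = ((R : ℝ) / r) ^ j * (∑ w ∈ S.neighborFinset v, hk S R x j w)
          * (1 / r) := by ring
      _ = ((R : ℝ) / r) ^ j * (∑ w ∈ S.neighborFinset v, hk S R x j w)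
          * ((R : ℝ) / r * (1 / (R : ℝ))) := by rw [h2]
      _ = _ := by ring

theorem supp_cardR (R : ℕ) (hi : ∀ v, (nb S v).card ≤ R) (j : ℕ) (v : V) :
    (univ.filter fun x => pk S r j v x ≠ 0).card ≤ R ^ j := by
  induction j generalizing v with
  | zero =>
    rw [pow_zero]
    have h1 : (univ.filter fun x => pk S r 0 v x ≠ 0) ⊆ {v} := by
      intro x hx
      rw [mem_filter, pk_zero] at hx
      rw [mem_singleton]
      by_contra hcon
      exact hx.2 (if_neg (fun h => hcon h.symm))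
    exact le_trans (card_le_card h1) (by simp)
  | succ j ih =>
    have h1 : (univ.filter fun x => pk S r (j + 1) v x ≠ 0) ⊆
        (nb S v).biUnion fun w => univ.filter fun x => pk S r j w x ≠ 0 := by
      intro x hx
      rw [mem_filter, pk_succ] at hx
      rw [mem_biUnion]
      by_contra hcon
      push Not at hcon
      apply hx.2
      have h2 : ∑ w ∈ nb S v, pk S r j w x = 0 := by
        refine Finset.sum_eq_zero fun w hw => ?_
        by_contra h3
        exact hcon w hw (mem_filter.2 ⟨mem_univ _, h3⟩)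
      rw [h2, zero_div]
    calc (univ.filter fun x => pk S r (j + 1) v x ≠ 0).card
        ≤ ((nb S v).biUnion fun w => univ.filter fun x => pk S r j w x ≠ 0).card :=
          card_le_card h1
      _ ≤ ∑ w ∈ nb S v, (univ.filter fun x => pk S r j w x ≠ 0).card := card_biUnion_le
      _ ≤ ∑ w ∈ nb S v, R ^ j := Finset.sum_le_sum fun w _ => ih w
      _ = (nb S v).card * R ^ j := by rw [Finset.sum_const, smul_eq_mul]
      _ ≤ R * R ^ j := Nat.mul_le_mul_right _ (hi v)
      _ = R ^ (j + 1) := by ring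

/-- level sets: the mass of the square on `O` -/
theorem sq_le (O : Finset V) (f : V → ℝ) (hf : ∀ u, 0 ≤ f u) (hf1 : ∑ u, f u ≤ 1) (s σ : ℝ)
    (hs : 0 ≤ s) (hσ : ∀ u, f u ≤ σ) (m : ℝ)
    (hm : ((O.filter fun u => s < f u).card : ℝ) ≤ m) :
    ∑ x ∈ O, f x ^ 2 ≤ s + m * σ ^ 2 := by
  have h1 : ∀ x ∈ O, f x ^ 2 ≤ s * f x + (if s < f x then σ ^ 2 else 0) := by
    intro x _
    split_ifs with h
    · have h2 : f x ^ 2 ≤ σ ^ 2 := pow_le_pow_left₀ (hf x) (hσ x) 2
      have h3 : 0 ≤ s * f x := mul_nonneg hs (hf x)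
      linarith
    · have h2 : f x * f x ≤ s * f x := mul_le_mul_of_nonneg_right (not_lt.mp h) (hf x)
      nlinarith
  calc ∑ x ∈ O, f x ^ 2 ≤ ∑ x ∈ O, (s * f x + (if s < f x then σ ^ 2 else 0)) :=
        Finset.sum_le_sum h1
    _ = s * ∑ x ∈ O, f x + ((O.filter fun u => s < f u).card : ℝ) * σ ^ 2 := by
        rw [Finset.sum_add_distrib, ← Finset.mul_sum, ← Finset.sum_filter, Finset.sum_const,
          nsmul_eq_mul]
    _ ≤ s * 1 + m * σ ^ 2 := by
        apply add_le_add
        · apply mul_le_mul_of_nonneg_left _ hs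
          exact le_trans (Finset.sum_le_sum_of_subset_of_nonneg (subset_univ O)
            fun u _ _ => hf u) hf1
        · exact mul_le_mul_of_nonneg_right hm (sq_nonneg _)
    _ = s + m * σ ^ 2 := by ring

/-- the mass on `O` does not grow much -/
theorem mass_step (hr : 1 ≤ r) (hi : ∀ v, (nb S v).card ≤ r + 2) (O : Finset V) (β B : ℝ)
    (hβ : 0 ≤ β) (cr : ∀ v, v ∉ O → ((nb S v ∩ O).card : ℝ) ≤ β * r) (v : V) (j : ℕ)
    (hB : ∑ x, pk S r j v x ≤ B) :
    ∑ x ∈ O, pk S r (j + 1) v x ≤ ∑ x ∈ O, pk S r j v x + (2 / r + β) * B := by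
  have hr' : (0 : ℝ) < r := by exact_mod_cast hr
  have hsym : ∀ j v x, pk S r j v x = pk S r j x v := by
    intro j v x
    rw [pk_hkR S r hr (r + 2) (by omega), pk_hkR S r hr (r + 2) (by omega), hk_symm]
  have h1 : ∀ x, pk S r (j + 1) v x = (∑ w ∈ nb S x, pk S r j v w) / r := by
    intro x
    rw [hsym, pk_succ]
    congr 1
    exact Finset.sum_congr rfl fun w _ => hsym _ _ _
  have h2 : ∑ x ∈ O, pk S r (j + 1) v x = ∑ w, pk S r j v w * (((nb S w ∩ O).card : ℝ) / r) := by
    simp_rw [h1]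
    rw [← Finset.sum_div]
    have h3 : ∑ x ∈ O, ∑ w ∈ nb S x, pk S r j v w =
        ∑ w, pk S r j v w * ((nb S w ∩ O).card : ℝ) := by
      calc ∑ x ∈ O, ∑ w ∈ nb S x, pk S r j v w
          = ∑ x ∈ O, ∑ w, (if w ∈ nb S x then pk S r j v w else 0) := by
            refine Finset.sum_congr rfl fun x _ => ?_
            rw [Finset.sum_ite_mem, univ_inter]
        _ = ∑ w, ∑ x ∈ O, (if w ∈ nb S x then pk S r j v w else 0) := Finset.sum_comm
        _ = ∑ w, pk S r j v w * ((nb S w ∩ O).card : ℝ) := by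
            refine Finset.sum_congr rfl fun w _ => ?_
            rw [← Finset.sum_filter, Finset.sum_const, nsmul_eq_mul, mul_comm]
            congr 2
            congr 1
            ext x
            simp only [mem_filter, mem_inter, nb, mem_univ, true_and]
            rw [S.adj_comm]
            tauto
    rw [h3, Finset.sum_div]
    refine Finset.sum_congr rfl fun w _ => ?_
    ring
  rw [h2]
  have h4 : ∀ w, pk S r j v w * (((nb S w ∩ O).card : ℝ) / r) ≤
      (if w ∈ O then pk S r j v w else 0) + (2 / r + β) * pk S r j v w := by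
    intro w
    have hp := pk_nonneg S r j v w
    split_ifs with hw
    · have h5 : ((nb S w ∩ O).card : ℝ) / r ≤ 1 + 2 / r := by
        rw [div_le_iff₀ hr']
        have h6 : ((nb S w ∩ O).card : ℝ) ≤ ((r + 2 : ℕ) : ℝ) := by
          exact_mod_cast le_trans (card_le_card inter_subset_left) (hi w)
        have h7 : (1 + 2 / (r : ℝ)) * r = r + 2 := by
          field_simp
        rw [h7]
        push_cast at h6
        exact h6
      have h8 : pk S r j v w * (((nb S w ∩ O).card : ℝ) / r) ≤ pk S r j v w * (1 + 2 / r) :=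
        mul_le_mul_of_nonneg_left h5 hp
      have h9 : 0 ≤ β * pk S r j v w := mul_nonneg hβ hp
      nlinarith
    · have h5 : ((nb S w ∩ O).card : ℝ) / r ≤ β := by
        rw [div_le_iff₀ hr']
        exact cr w hw
      have h8 : pk S r j v w * (((nb S w ∩ O).card : ℝ) / r) ≤ pk S r j v w * β :=
        mul_le_mul_of_nonneg_left h5 hp
      have h9 : 0 ≤ 2 / (r : ℝ) * pk S r j v w := by positivity
      nlinarith
  calc ∑ w, pk S r j v w * (((nb S w ∩ O).card : ℝ) / r)
      ≤ ∑ w, ((if w ∈ O then pk S r j v w else 0) + (2 / r + β) * pk S r j v w) :=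
        Finset.sum_le_sum fun w _ => h4 w
    _ = ∑ x ∈ O, pk S r j v x + (2 / r + β) * ∑ w, pk S r j v w := by
        rw [Finset.sum_add_distrib, Finset.sum_ite_mem, univ_inter, Finset.mul_sum]
    _ ≤ ∑ x ∈ O, pk S r j v x + (2 / r + β) * B := by
        have : 0 ≤ 2 / (r : ℝ) + β := by positivity
        nlinarith

end Basic

section Asym

open Filter Topology

/-- the constants are fine for large `d` -/
theorem asymX (a e c1 M3 : ℝ) (ha0 : 0 < a) (ha1 : a ≤ 1 / 100) (he : 0 < e) (hc : 0 < c1)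
    (hM : 0 < M3) :
    ∃ d0 : ℕ, 4 ≤ d0 ∧ ∀ d : ℕ, d0 ≤ d →
      8 ≤ (d : ℝ) ^ (a / 50) ∧ 6 / e ≤ (d : ℝ) ^ (a / 50) ∧
      a * Real.log d ≤ c1 ^ 2 / 16 * (d : ℝ) ^ (a / 50) ∧
      M3 < (d : ℝ) ^ (a / 150) ∧
      8 * (d : ℝ) ^ (a / 30) ≤ Real.log (3 / 2) * (d : ℝ) ^ (1 - a) ∧
      9 * Real.log d ≤ (d : ℝ) ^ (a / 60) ∧
      48 / e ≤ (d : ℝ) ^ (1 - a) ∧ 2 ≤ c1 * d := by
  have hpow : ∀ b : ℝ, 0 < b → Tendsto (fun d : ℕ => (d : ℝ) ^ b) atTop atTop := fun b hb =>
    (tendsto_rpow_atTop hb).comp tendsto_natCast_atTop_atTop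
  have hlog : ∀ b C : ℝ, 0 < b → 0 < C → ∀ᶠ d : ℕ in atTop, Real.log d ≤ C * (d : ℝ) ^ b := by
    intro b C hb hC
    have h1 := (isLittleO_log_rpow_atTop hb).bound hC
    have h2 := tendsto_natCast_atTop_atTop.eventually h1
    filter_upwards [h2, eventually_ge_atTop 1] with d h3 h4
    have h5 : (1 : ℝ) ≤ d := by exact_mod_cast h4
    rw [Real.norm_of_nonneg (Real.log_nonneg h5),
      Real.norm_of_nonneg (Real.rpow_nonneg (by linarith) _)] at h3
    exact h3
  have hl : 0 < Real.log (3 / 2) := Real.log_pos (by norm_num)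
  have e1 := (hpow (a / 50) (by positivity)).eventually_ge_atTop (8 + 6 / e)
  have e2 := hlog (a / 50) (c1 ^ 2 / (16 * a)) (by positivity) (by positivity)
  have e3 := (hpow (a / 150) (by positivity)).eventually_ge_atTop (M3 + 1)
  have e4 := (hpow (1 / 2) (by norm_num)).eventually_ge_atTop (8 / Real.log (3 / 2) + 48 / e)
  have e5 := hlog (a / 60) (1 / 9) (by positivity) (by norm_num)
  have e6 := (tendsto_natCast_atTop_atTop (R := ℝ)).eventually_ge_atTop (2 / c1)
  obtain ⟨d0, hd0⟩ := (e1.and (e2.and (e3.and (e4.and (e5.and e6))))).exists_forall_of_atTop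
  refine ⟨max d0 4, le_max_right _ _, fun d hd => ?_⟩
  obtain ⟨f1, f2, f3, f4, f5, f6⟩ := hd0 d (le_trans (le_max_left _ _) hd)
  have hd2 : (4 : ℝ) ≤ d := by exact_mod_cast le_trans (le_max_right _ _) hd
  have hd0' : (0 : ℝ) < d := by linarith
  have hp1 : 0 < 8 / Real.log (3 / 2) := by positivity
  have hp2 : 0 < 48 / e := by positivity
  have hp3 : 0 < 6 / e := by positivity
  have hsplit : (d : ℝ) ^ (1 - a) = (d : ℝ) ^ (a / 30) * (d : ℝ) ^ (1 - a - a / 30) := by
    rw [← Real.rpow_add hd0']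
    congr 1
    ring
  have hhalf : (d : ℝ) ^ ((1 : ℝ) / 2) ≤ (d : ℝ) ^ (1 - a - a / 30) := by
    apply Real.rpow_le_rpow_of_exponent_le (by linarith)
    linarith
  have hy0 : (0 : ℝ) < (d : ℝ) ^ (a / 30) := Real.rpow_pos_of_pos hd0' _
  refine ⟨by linarith, by linarith, ?_, by linarith, ?_, by linarith, ?_, ?_⟩
  · calc a * Real.log d ≤ a * (c1 ^ 2 / (16 * a) * (d : ℝ) ^ (a / 50)) :=
          mul_le_mul_of_nonneg_left f2 ha0.le
      _ = c1 ^ 2 / 16 * (d : ℝ) ^ (a / 50) := by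
          field_simp
  · rw [hsplit]
    have h3 : 8 ≤ Real.log (3 / 2) * (d : ℝ) ^ (1 - a - a / 30) := by
      have h4 : 8 / Real.log (3 / 2) ≤ (d : ℝ) ^ (1 - a - a / 30) := by linarith
      rw [div_le_iff₀ hl] at h4
      linarith
    nlinarith
  · rw [hsplit]
    have h3 : 48 / e ≤ (d : ℝ) ^ (1 - a - a / 30) := by linarith
    have h5 : (1 : ℝ) ≤ (d : ℝ) ^ (a / 30) := Real.one_le_rpow (by linarith) (by positivity)
    nlinarith
  · rw [div_le_iff₀ hc] at f6
    linarith

end Asym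

section Main

variable {V : Type u} [Fintype V]

/-- small level sets of the kernel after many steps -/
theorem lev_small (S : SimpleGraph V) (D R : ℕ) (O A : Finset V) (MS g δ s : ℝ) (hD : 0 < (D : ℝ))
    (hMS : 0 < MS) (hg : 0 < g) (hR : 0 < R) (hdeg : ∀ u, S.degree u ≤ R)
    (sup : ∀ v w, S.Adj v w → v ∈ A)
    (cl : ∀ T : Finset V, T ⊆ A → (T.card : ℝ) ≤ MS * D → cut2 S R T ≤ g * D →
      ((T ∩ O).card : ℝ) ≤ δ * D) (v : V) (T k : ℕ) (hk1 : 1 ≤ k)
    (hs : nsq (hk S R v T) ≤ s) (hlt : 2 * s * MS ^ 3 * D < g ^ 2 * k) :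
    ((O.filter fun u => 2 * (1 / (MS * D)) < hk S R v (T + k) u).card : ℝ) ≤ δ * D := by
  have hk0 : (0 : ℝ) < k := by exact_mod_cast hk1
  obtain ⟨f, hf⟩ : ∃ f, f = hk S R v (T + k) := ⟨_, rfl⟩
  rw [← hf]
  have hf0 : ∀ u, 0 ≤ f u := fun u => by rw [hf]; exact hk_nonneg S R v _ u
  have hf1 : ∑ u, f u ≤ 1 := by rw [hf]; exact hk_sum S R hdeg hR v _
  have hE : ∑ u, ∑ w, qk S R u w * (f u - f w) ^ 2 ≤ 2 * s / k := by
    refine le_trans (dir_le S R hdeg hR f) ?_
    have h1 := en_hk S R v T k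
    have h2 : nsq (hk S R v (T + k + 1)) = nsq (wk S R f) := by
      rw [hf]
      rfl
    rw [h2, ← hf] at h1
    have h3 : (k : ℝ) * (nsq f - nsq (wk S R f)) ≤ s := by
      have h4 := nsq_nonneg f
      linarith
    rw [le_div_iff₀ hk0]
    linarith
  have hs' : 0 < 1 / (MS * D) := by positivity
  obtain ⟨τ, h1, h2, h3⟩ := level (qk S R) (qk_nonneg S R) (qk_row S R hdeg hR) f hf0 hf1
    (2 * s / k) (1 / (MS * D)) (g * D) hs' (by positivity) hE (by
      have e1 : 2 * s / k / (1 / (MS * D)) = 2 * s * MS ^ 3 * D / (k * MS ^ 2) := by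
        field_simp
      have e2 : (g * D * (1 / (MS * D))) ^ 2 = g ^ 2 * k / (k * MS ^ 2) := by
        field_simp
      rw [e1, e2]
      exact div_lt_div_of_pos_right hlt (by positivity))
  obtain ⟨T', hT'⟩ : ∃ T' : Finset V, T' = univ.filter fun u => τ < f u := ⟨_, rfl⟩
  rw [← hT'] at h3
  have hτ0 : 0 < τ := lt_of_lt_of_le hs' h1
  have hTA : T' ⊆ A := by
    intro u hu
    rw [hT', mem_filter] at hu
    by_contra hcon
    have h4 : f u = 0 := by
      rw [hf, show T + k = T + (k - 1) + 1 by omega]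
      exact hk_out S R A sup v _ u hcon
    linarith [hu.2]
  have hTc : (T'.card : ℝ) ≤ MS * D := by
    have h4 : (T'.card : ℝ) * (1 / (MS * D)) ≤ 1 := by
      calc (T'.card : ℝ) * (1 / (MS * D)) = ∑ u ∈ T', (1 / (MS * D)) := by
            rw [Finset.sum_const, nsmul_eq_mul]
        _ ≤ ∑ u ∈ T', f u := by
            refine Finset.sum_le_sum fun u hu => ?_
            rw [hT', mem_filter] at hu
            linarith [hu.2]
        _ ≤ ∑ u, f u := Finset.sum_le_sum_of_subset_of_nonneg (subset_univ _)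
            fun u _ _ => hf0 u
        _ ≤ 1 := hf1
    rw [mul_one_div, div_le_one (by positivity)] at h4
    exact h4
  have h5 := cl T' hTA hTc (by
    refine le_trans (le_of_eq ?_) h3
    unfold cut2 cdg qk
    simp_rw [nb_eq])
  refine le_trans ?_ h5
  have h6 : (O.filter fun u => 2 * (1 / (MS * D)) < f u) ⊆ T' ∩ O := by
    intro u hu
    rw [mem_filter] at hu
    rw [mem_inter, hT', mem_filter]
    exact ⟨⟨mem_univ _, lt_trans h2 hu.2⟩, hu.1⟩
  exact_mod_cast card_le_card h6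

end Main

/-- **Block KERX.** -/
theorem stmt_KERX : Stmt_KERX.{u} := by
  intro a c1 ha0 ha1 hc0 hc1
  refine ⟨32 / c1, by positivity, ?_⟩
  intro e he
  obtain ⟨MS, hMS⟩ : ∃ MS, MS = 36 / e + 1 := ⟨_, rfl⟩
  obtain ⟨δ, hδ⟩ : ∃ δ, δ = e * c1 ^ 2 / 1152 := ⟨_, rfl⟩
  obtain ⟨β, hβ⟩ : ∃ β, β = e / 24 := ⟨_, rfl⟩
  have hMS1 : 1 ≤ MS := by
    rw [hMS]
    have : 0 < 36 / e := by positivity
    linarith
  have hMS0 : 0 < MS := by linarith
  have hδ0 : 0 < δ := by rw [hδ]; positivity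
  have hβ0 : 0 < β := by rw [hβ]; positivity
  obtain ⟨d0, hd04, hd0⟩ := asymX a e c1 (16 * MS ^ 3 / c1) ha0 ha1 he hc0 (by positivity)
  refine ⟨MS, δ, β, d0, hMS1, hδ0, hβ0, ?_⟩
  intro V _ S D r L O A g hD hgD hg1 hrlo hrD hLlo hLhi hCl
  obtain ⟨hA1, hA2, hA3, hA4, hA5, hA6, hA7, hA8⟩ := hd0 D hD
  have hD4 : (4 : ℝ) ≤ D := by exact_mod_cast le_trans hd04 hD
  have hDpos : (0 : ℝ) < D := by linarith
  have hg0 : 0 < g := lt_of_lt_of_le (Real.rpow_pos_of_pos hDpos _) hgD
  have hda1 : (1 : ℝ) ≤ (D : ℝ) ^ (1 - a) := Real.one_le_rpow (by linarith) (by linarith)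
  have hr1' : (1 : ℝ) ≤ r := le_trans hda1 hrlo
  have hr1 : 1 ≤ r := by exact_mod_cast hr1'
  have hrpos : (0 : ℝ) < r := by linarith
  -- the length
  obtain ⟨y, hy⟩ : ∃ y, y = (D : ℝ) ^ (a / 50) := ⟨_, rfl⟩
  obtain ⟨z, hz⟩ : ∃ z, z = (D : ℝ) ^ (a / 30) := ⟨_, rfl⟩
  rw [← hy] at hA1 hA2 hA3 hLlo
  rw [← hz] at hA5 hLhi
  have hL8' : (8 : ℝ) ≤ L := le_trans hA1 hLlo
  have hL8 : 8 ≤ L := by exact_mod_cast hL8'
  have hLpos : (0 : ℝ) < L := by linarith
  have hLe : 6 / e ≤ L := by linarith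
  obtain ⟨R, hRdef⟩ : ∃ R : ℕ, R = r + 2 := ⟨_, rfl⟩
  have hR0 : 0 < R := by omega
  have hRr : (r : ℝ) ≤ R := by rw [hRdef]; push_cast; linarith
  have hRpos : (0 : ℝ) < R := by linarith
  -- the powers of R / r
  obtain ⟨α, hα⟩ : ∃ α, α = (R : ℝ) / r := ⟨_, rfl⟩
  have hαone : 1 ≤ α := by
    rw [hα, le_div_iff₀ hrpos]
    linarith
  have hαexp : α ≤ Real.exp (2 / r) := by
    have h1 : α = 2 / r + 1 := by
      rw [hα, hRdef]
      push_cast
      field_simp
      ring
    rw [h1]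
    exact Real.add_one_le_exp _
  have hl32 : 0 < Real.log (3 / 2) := Real.log_pos (by norm_num)
  have hα4 : α ^ (4 * L) ≤ 3 / 2 := by
    calc α ^ (4 * L) ≤ Real.exp (2 / r) ^ (4 * L) := pow_le_pow_left₀ (by linarith) hαexp _
      _ = Real.exp (((4 * L : ℕ) : ℝ) * (2 / r)) := by rw [← Real.exp_nat_mul]
      _ ≤ Real.exp (Real.log (3 / 2)) := by
          apply Real.exp_le_exp.2
          rw [← mul_div_assoc, div_le_iff₀ hrpos]
          calc ((4 * L : ℕ) : ℝ) * 2 ≤ 8 * z := by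
                push_cast
                linarith
            _ ≤ Real.log (3 / 2) * (D : ℝ) ^ (1 - a) := hA5
            _ ≤ Real.log (3 / 2) * r := mul_le_mul_of_nonneg_left hrlo hl32.le
      _ = 3 / 2 := Real.exp_log (by norm_num)
  have hαj : ∀ j, j ≤ 4 * L → α ^ j ≤ 3 / 2 := fun j hj =>
    le_trans (pow_le_pow_right₀ hαone hj) hα4
  have hα0 : ∀ j, 0 ≤ α ^ j := fun j => pow_nonneg (by linarith) j
  have hc12 : c1 ^ 2 ≤ 1 := pow_le_one₀ hc0.le hc1
  -- the heat kernel
  have hi : ∀ v, (nb S v).card ≤ R := fun v => by rw [hRdef]; exact hCl.hi v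
  have hdeg : ∀ u, S.degree u ≤ R := fun u => by
    rw [← S.card_neighborFinset_eq_degree, ← nb_eq]
    exact hi u
  have hpk : ∀ j v x, pk S r j v x = α ^ j * hk S R v j x := by
    intro j v x
    rw [pk_hkR S r hr1 R hR0, ← hα, hk_symm]
  have hpks : ∀ j v x, pk S r j v x = pk S r j x v := by
    intro j v x
    rw [hpk, hpk, hk_symm]
  obtain ⟨s, hs⟩ : ∃ s, s = 8 / (c1 * D) := ⟨_, rfl⟩
  have hs0 : 0 < s := by rw [hs]; positivity
  obtain ⟨N, hN⟩ : ∃ N : ℕ, N = ⌊c1 * D⌋₊ := ⟨_, rfl⟩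
  have hNle : (N : ℝ) ≤ c1 * D := by
    rw [hN]
    exact Nat.floor_le (by positivity)
  have h4s : 4 / s ≤ (N : ℝ) := by
    have h1 : c1 * D < N + 1 := by
      rw [hN]
      exact Nat.lt_floor_add_one _
    have h2 : 4 / s = c1 * D / 2 := by
      rw [hs]
      field_simp
      norm_num
    rw [h2]
    linarith
  have hexp : ∀ T : Finset V, T ⊆ A → T.card ≤ N →
      c1 * T.card ≤ ∑ u ∈ T, ∑ w ∈ univ \ T, qk S R u w := by
    intro T hTA hT
    have h1 : (T.card : ℝ) ≤ c1 * D := le_trans (by exact_mod_cast hT) hNle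
    refine le_trans (hCl.sm T hTA h1) (le_of_eq ?_)
    rw [← hRdef]
    unfold cut2 cdg qk
    simp_rw [nb_eq]
  obtain ⟨T, hT⟩ : ∃ T : ℕ, T = L / 2 := ⟨_, rfl⟩
  have hT4 : 4 ≤ T := by omega
  have hTy : y / 4 ≤ ((T - 1 : ℕ) : ℝ) := by
    have h1 : L ≤ 2 * T + 1 := by omega
    have h2 : (L : ℝ) ≤ 2 * T + 1 := by exact_mod_cast h1
    rw [Nat.cast_sub (by omega)]
    push_cast
    linarith
  have hheat : ∀ v, nsq (hk S R v T) ≤ s := by
    intro v
    have h1 := heatA S R hdeg hR0 A hCl.sup N c1 hc0.le (by linarith) hexp s hs0 h4s v (T - 1)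
    rw [show T - 1 + 1 = T by omega] at h1
    refine le_trans h1 (max_le le_rfl ?_)
    have hq0 : 0 ≤ 1 - c1 ^ 2 / 4 := by linarith
    have h2 : (1 - c1 ^ 2 / 4) ^ (T - 1) ≤ (D : ℝ) ^ (-a) := by
      calc (1 - c1 ^ 2 / 4) ^ (T - 1) ≤ Real.exp (-(c1 ^ 2 / 4)) ^ (T - 1) := by
            apply pow_le_pow_left₀ hq0
            have := Real.add_one_le_exp (-(c1 ^ 2 / 4))
            linarith
        _ = Real.exp (((T - 1 : ℕ) : ℝ) * (-(c1 ^ 2 / 4))) := by rw [← Real.exp_nat_mul]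
        _ ≤ Real.exp (Real.log D * (-a)) := by
            apply Real.exp_le_exp.2
            have h3 : y / 4 * (c1 ^ 2 / 4) ≤ ((T - 1 : ℕ) : ℝ) * (c1 ^ 2 / 4) :=
              mul_le_mul_of_nonneg_right hTy (by positivity)
            linarith
        _ = (D : ℝ) ^ (-a) := by rw [Real.rpow_def_of_pos hDpos]
    have h3 : 1 / (R : ℝ) ≤ (D : ℝ) ^ a / D := by
      have h4 : (D : ℝ) ^ (1 - a) * (D : ℝ) ^ a = D := by
        rw [← Real.rpow_add hDpos]
        norm_num
      rw [div_le_div_iff₀ hRpos hDpos, one_mul]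
      have h5 : 0 < (D : ℝ) ^ a := Real.rpow_pos_of_pos hDpos _
      nlinarith
    have h6 : (D : ℝ) ^ (-a) * (D : ℝ) ^ a = 1 := by
      rw [← Real.rpow_add hDpos]
      norm_num
    calc (1 - c1 ^ 2 / 4) ^ (T - 1) * (1 / (R : ℝ))
        ≤ (D : ℝ) ^ (-a) * ((D : ℝ) ^ a / D) := mul_le_mul h2 h3 (by positivity) (by positivity)
      _ = ((D : ℝ) ^ (-a) * (D : ℝ) ^ a) / D := by ring
      _ = 1 / D := by rw [h6]
      _ ≤ s := by
          rw [hs, div_le_div_iff₀ hDpos (by positivity)]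
          nlinarith
  have hheat' : ∀ v j, T ≤ j → nsq (hk S R v j) ≤ s := fun v j hj =>
    le_trans (nsq_hk_anti' S R hdeg hR0 v hj) (hheat v)
  have hsup : ∀ v j x, 2 * T ≤ j → hk S R v j x ≤ s := by
    intro v j x hj
    have h1 := hk_le S R v x T (j - T) s (hheat x) (hheat' v (j - T) (by omega))
    rwa [show j - T + T = j by omega] at h1
  -- the level sets
  have hlev : ∀ v j, 2 * L - 1 ≤ j →
      ((O.filter fun u => 2 * (1 / (MS * D)) < hk S R v j u).card : ℝ) ≤ δ * D := by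
    intro v j hj
    have h1 := lev_small S D R O A MS g δ s hDpos hMS0 hg0 hR0 hdeg hCl.sup
      (by rw [hRdef]; exact hCl.cl) v T (j - T) (by omega) (hheat v) (by
        have hkL : (L : ℝ) ≤ ((j - T : ℕ) : ℝ) := by
          have : L ≤ j - T := by omega
          exact_mod_cast this
        have h2 : (D : ℝ) ^ (-(a / 75)) ≤ g ^ 2 := by
          have h3 : (D : ℝ) ^ (-(a / 75)) = ((D : ℝ) ^ (-(a / 150))) ^ 2 := by
            rw [← Real.rpow_natCast, ← Real.rpow_mul hDpos.le]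
            congr 1
            push_cast
            ring
          rw [h3]
          exact pow_le_pow_left₀ (Real.rpow_nonneg hDpos.le _) hgD 2
        have h4 : (D : ℝ) ^ (a / 150) = (D : ℝ) ^ (-(a / 75)) * y := by
          rw [hy, ← Real.rpow_add hDpos]
          congr 1
          ring
        have h5 : 2 * s * MS ^ 3 * D = 16 * MS ^ 3 / c1 := by
          rw [hs]
          field_simp
          norm_num
        have hDp : 0 < (D : ℝ) ^ (-(a / 75)) := Real.rpow_pos_of_pos hDpos _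
        have h7 : (D : ℝ) ^ (-(a / 75)) * y ≤ g ^ 2 * ((j - T : ℕ) : ℝ) :=
          mul_le_mul h2 (le_trans hLlo hkL) (by linarith) (by positivity)
        have h8 : 16 * MS ^ 3 / c1 < (D : ℝ) ^ (-(a / 75)) * y := by rw [← h4]; exact hA4
        rw [h5]
        linarith)
    rwa [show T + (j - T) = j by omega] at h1
  obtain ⟨Q, hQ⟩ : ∃ Q, Q = 2 * (1 / (MS * D)) + δ * D * s ^ 2 := ⟨_, rfl⟩
  have hQ9 : 9 * Q ≤ e / D := by
    have h1 : 1 / MS ≤ e / 36 := by
      rw [div_le_div_iff₀ hMS0 (by norm_num), hMS]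
      have : e * (36 / e + 1) = 36 + e := by field_simp
      rw [this]
      linarith
    have h2 : δ * D * s ^ 2 = e / 18 / D := by
      rw [hδ, hs]
      field_simp
      norm_num
    have h3 : 2 * (1 / (MS * D)) = 2 * (1 / MS) / D := by
      field_simp
    rw [hQ, h2, h3, ← add_div, ← mul_div_assoc]
    apply div_le_div_of_nonneg_right _ hDpos.le
    linarith
  have hsqhk : ∀ v j, 2 * L - 1 ≤ j → ∑ x ∈ O, hk S R v j x ^ 2 ≤ Q := by
    intro v j hj
    rw [hQ]
    exact sq_le O (hk S R v j) (hk_nonneg S R v j) (hk_sum S R hdeg hR0 v j) _ s (by positivity)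
      (fun u => hsup v j u (by omega)) (δ * D) (hlev v j hj)
  have hsqpk : ∀ v j, 2 * L - 1 ≤ j → j ≤ 4 * L → ∑ x ∈ O, pk S r j v x ^ 2 ≤ 9 / 4 * Q := by
    intro v j hj hj2
    calc ∑ x ∈ O, pk S r j v x ^ 2 = (α ^ j) ^ 2 * ∑ x ∈ O, hk S R v j x ^ 2 := by
          rw [Finset.mul_sum]
          refine Finset.sum_congr rfl fun x _ => ?_
          rw [hpk]
          ring
      _ ≤ (3 / 2) ^ 2 * Q := by
          apply mul_le_mul (pow_le_pow_left₀ (hα0 j) (hαj j hj2) 2) (hsqhk v j hj)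
            (Finset.sum_nonneg fun x _ => sq_nonneg _) (by positivity)
      _ = 9 / 4 * Q := by ring
  have hsumpk : ∀ v j, j ≤ 4 * L → ∑ x, pk S r j v x ≤ 3 / 2 := by
    intro v j hj
    calc ∑ x, pk S r j v x = α ^ j * ∑ x, hk S R v j x := by
          rw [Finset.mul_sum]
          exact Finset.sum_congr rfl fun x _ => hpk j v x
      _ ≤ 3 / 2 * 1 := by
          apply mul_le_mul (hαj j hj) (hk_sum S R hdeg hR0 v j)
            (Finset.sum_nonneg fun x _ => hk_nonneg S R v j x) (by norm_num)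
      _ = 3 / 2 := mul_one _
  have hsuppk : ∀ v j x, 2 * L - 1 ≤ j → j ≤ 4 * L → pk S r j v x ≤ 3 / 2 * s := by
    intro v j x hj hj2
    rw [hpk]
    exact mul_le_mul (hαj j hj2) (hsup v j x (by omega)) (hk_nonneg S R v j x) (by norm_num)
  have hkk : ∀ v x, k0 S r L v x + k1 S r L v x =
      (∑ l ∈ Ico L (2 * L), (pk S r (2 * l) v x + pk S r (2 * l - 1) v x)) / L := by
    intro v x
    unfold k0 k1
    rw [Finset.sum_add_distrib, add_div]
  have hkm : ∀ v x, k0 S r L v x - k1 S r L v x =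
      (∑ l ∈ Ico L (2 * L), (pk S r (2 * l) v x - pk S r (2 * l - 1) v x)) / L := by
    intro v x
    unfold k0 k1
    rw [Finset.sum_sub_distrib, sub_div]
  have hcardI : ((Ico L (2 * L)).card : ℝ) = L := by
    rw [Nat.card_Ico]
    congr 1
    omega
  have hsupp : ∀ v, ((univ.filter fun x => k0 S r L v x + k1 S r L v x ≠ 0).card : ℝ) ≤ sx D a := by
    intro v
    have h1 : (univ.filter fun x => k0 S r L v x + k1 S r L v x ≠ 0) ⊆
        (Ico (2 * L - 1) (4 * L)).biUnion fun j => univ.filter fun x => pk S r j v x ≠ 0 := by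
      intro x hx
      rw [mem_filter, hkk] at hx
      rw [mem_biUnion]
      by_contra hcon
      push Not at hcon
      apply hx.2
      have hz : ∀ j, j ∈ Ico (2 * L - 1) (4 * L) → pk S r j v x = 0 := by
        intro j hj
        by_contra h3
        exact hcon j hj (mem_filter.2 ⟨mem_univ _, h3⟩)
      have h2 : ∑ l ∈ Ico L (2 * L), (pk S r (2 * l) v x + pk S r (2 * l - 1) v x) = 0 := by
        refine Finset.sum_eq_zero fun l hl => ?_
        rw [mem_Ico] at hl
        rw [hz (2 * l) (mem_Ico.2 ⟨by omega, by omega⟩),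
          hz (2 * l - 1) (mem_Ico.2 ⟨by omega, by omega⟩), add_zero]
      rw [h2, zero_div]
    have h2 : (univ.filter fun x => k0 S r L v x + k1 S r L v x ≠ 0).card ≤
        (2 * L + 1) * R ^ (4 * L) := by
      calc (univ.filter fun x => k0 S r L v x + k1 S r L v x ≠ 0).card
          ≤ _ := card_le_card h1
        _ ≤ ∑ j ∈ Ico (2 * L - 1) (4 * L), (univ.filter fun x => pk S r j v x ≠ 0).card :=
            card_biUnion_le
        _ ≤ ∑ j ∈ Ico (2 * L - 1) (4 * L), R ^ (4 * L) := by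
            refine Finset.sum_le_sum fun j hj => ?_
            rw [mem_Ico] at hj
            exact le_trans (supp_cardR S r R hi j v) (Nat.pow_le_pow_right hR0 (by omega))
        _ = (2 * L + 1) * R ^ (4 * L) := by
            rw [Finset.sum_const, Nat.card_Ico, smul_eq_mul]
            congr 1
            omega
    have h3 : (((2 * L + 1) * R ^ (4 * L) : ℕ) : ℝ) ≤ sx D a := by
      unfold sx
      have hlD : 1 ≤ Real.log D := by
        rw [Real.le_log_iff_exp_le hDpos]
        have := Real.exp_one_lt_d9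
        linarith
      have hDx : (D : ℝ) = Real.exp (Real.log D) := by rw [Real.exp_log hDpos]
      have hRD : (R : ℝ) ≤ Real.exp (2 * Real.log D) := by
        have h4 : (r : ℝ) ≤ D := by exact_mod_cast hrD
        have h5 : Real.exp (2 * Real.log D) = D * D := by
          rw [two_mul, Real.exp_add, ← hDx]
        rw [h5, hRdef]
        push_cast
        nlinarith
      have h5 : (R : ℝ) ^ (4 * L) ≤ Real.exp (8 * z * Real.log D) := by
        calc (R : ℝ) ^ (4 * L) ≤ Real.exp (2 * Real.log D) ^ (4 * L) :=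
              pow_le_pow_left₀ hRpos.le hRD _
          _ = Real.exp (((4 * L : ℕ) : ℝ) * (2 * Real.log D)) := by rw [← Real.exp_nat_mul]
          _ ≤ Real.exp (8 * z * Real.log D) := by
              apply Real.exp_le_exp.2
              push_cast
              nlinarith
      have h6 : 2 * (L : ℝ) + 1 ≤ Real.exp z := by
        have h7 := Real.quadratic_le_exp_of_nonneg (x := z) (by linarith)
        nlinarith
      have h8 : (D : ℝ) ^ (a / 20) = z * (D : ℝ) ^ (a / 60) := by
        rw [hz, ← Real.rpow_add hDpos]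
        congr 1
        ring
      push_cast
      calc (2 * (L : ℝ) + 1) * (R : ℝ) ^ (4 * L)
          ≤ Real.exp z * Real.exp (8 * z * Real.log D) :=
            mul_le_mul h6 h5 (by positivity) (by positivity)
        _ = Real.exp (z + 8 * z * Real.log D) := by rw [← Real.exp_add]
        _ ≤ Real.exp ((D : ℝ) ^ (a / 20)) := by
            apply Real.exp_le_exp.2
            rw [h8]
            nlinarith
    exact le_trans (by exact_mod_cast h2) h3
  refine ⟨?_, ?_, ?_, ?_, hsupp, ?_⟩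
  · intro v
    refine le_trans ?_ hQ9
    have h1 : ∀ x, (k0 S r L v x + k1 S r L v x) ^ 2 ≤
        (∑ l ∈ Ico L (2 * L), (2 * pk S r (2 * l) v x ^ 2 + 2 * pk S r (2 * l - 1) v x ^ 2)) / L := by
      intro x
      rw [hkk, div_pow]
      have h2 := sq_sum_le_card_mul_sum_sq (s := Ico L (2 * L))
        (f := fun l => pk S r (2 * l) v x + pk S r (2 * l - 1) v x)
      rw [hcardI] at h2
      rw [div_le_div_iff₀ (by positivity) hLpos]
      have h3 : ∑ l ∈ Ico L (2 * L), (pk S r (2 * l) v x + pk S r (2 * l - 1) v x) ^ 2 ≤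
          ∑ l ∈ Ico L (2 * L), (2 * pk S r (2 * l) v x ^ 2 + 2 * pk S r (2 * l - 1) v x ^ 2) := by
        refine Finset.sum_le_sum fun l _ => ?_
        nlinarith [sq_nonneg (pk S r (2 * l) v x - pk S r (2 * l - 1) v x)]
      calc (∑ l ∈ Ico L (2 * L), (pk S r (2 * l) v x + pk S r (2 * l - 1) v x)) ^ 2 * L
          ≤ (L * ∑ l ∈ Ico L (2 * L), (pk S r (2 * l) v x + pk S r (2 * l - 1) v x) ^ 2) * L :=
            mul_le_mul_of_nonneg_right h2 hLpos.le
        _ ≤ (L * ∑ l ∈ Ico L (2 * L),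
            (2 * pk S r (2 * l) v x ^ 2 + 2 * pk S r (2 * l - 1) v x ^ 2)) * L :=
            mul_le_mul_of_nonneg_right (mul_le_mul_of_nonneg_left h3 hLpos.le) hLpos.le
        _ = _ := by ring
    calc ∑ x ∈ O, (k0 S r L v x + k1 S r L v x) ^ 2
        ≤ ∑ x ∈ O, ((∑ l ∈ Ico L (2 * L),
          (2 * pk S r (2 * l) v x ^ 2 + 2 * pk S r (2 * l - 1) v x ^ 2)) / (L : ℝ)) :=
          Finset.sum_le_sum fun x _ => h1 x
      _ = (∑ l ∈ Ico L (2 * L), (2 * ∑ x ∈ O, pk S r (2 * l) v x ^ 2 +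
          2 * ∑ x ∈ O, pk S r (2 * l - 1) v x ^ 2)) / L := by
          rw [← Finset.sum_div, Finset.sum_comm]
          congr 1
          refine Finset.sum_congr rfl fun l _ => ?_
          rw [Finset.sum_add_distrib, ← Finset.mul_sum, ← Finset.mul_sum]
      _ ≤ (∑ l ∈ Ico L (2 * L), 9 * Q) / L := by
          apply div_le_div_of_nonneg_right _ hLpos.le
          refine Finset.sum_le_sum fun l hl => ?_
          rw [mem_Ico] at hl
          have h2 := hsqpk v (2 * l) (by omega) (by omega)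
          have h3 := hsqpk v (2 * l - 1) (by omega) (by omega)
          linarith
      _ = 9 * Q := by
          rw [Finset.sum_const, nsmul_eq_mul, hcardI]
          field_simp
  · intro v x
    rw [hkk, div_le_iff₀ hLpos]
    calc ∑ l ∈ Ico L (2 * L), (pk S r (2 * l) v x + pk S r (2 * l - 1) v x)
        ≤ ∑ l ∈ Ico L (2 * L), 3 * s := by
          refine Finset.sum_le_sum fun l hl => ?_
          rw [mem_Ico] at hl
          have h2 := hsuppk v (2 * l) x (by omega) (by omega)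
          have h3 := hsuppk v (2 * l - 1) x (by omega) (by omega)
          linarith
      _ = 3 * s * L := by
          rw [Finset.sum_const, nsmul_eq_mul, hcardI]
          ring
      _ ≤ 32 / c1 / D * L := by
          apply mul_le_mul_of_nonneg_right _ hLpos.le
          rw [hs, div_div, ← mul_div_assoc]
          apply div_le_div_of_nonneg_right _ (by positivity)
          norm_num
  · intro v
    simp_rw [hkk]
    rw [← Finset.sum_div, div_le_iff₀ hLpos, Finset.sum_comm]
    calc ∑ l ∈ Ico L (2 * L), ∑ x, (pk S r (2 * l) v x + pk S r (2 * l - 1) v x)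
        ≤ ∑ l ∈ Ico L (2 * L), (3 : ℝ) := by
          refine Finset.sum_le_sum fun l hl => ?_
          rw [mem_Ico] at hl
          rw [Finset.sum_add_distrib]
          have h2 := hsumpk v (2 * l) (by omega)
          have h3 := hsumpk v (2 * l - 1) (by omega)
          linarith
      _ = 3 * L := by
          rw [Finset.sum_const, nsmul_eq_mul, hcardI]
          ring
  · intro v
    obtain ⟨Φ, hΦ⟩ : ∃ Φ : ℕ → ℝ, Φ = fun j => ∑ x ∈ O, pk S r j v x := ⟨_, rfl⟩
    obtain ⟨m, hm⟩ : ∃ m, m = (2 / (r : ℝ) + β) * (3 / 2) := ⟨_, rfl⟩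
    have hm0 : 0 ≤ m := by rw [hm]; positivity
    have hΦ0 : ∀ j, 0 ≤ Φ j := fun j => by
      rw [hΦ]
      exact Finset.sum_nonneg fun x _ => pk_nonneg S r j v x
    have hΦ1 : ∀ j, j ≤ 4 * L → Φ j ≤ 3 / 2 := fun j hj => by
      rw [hΦ]
      exact le_trans (Finset.sum_le_sum_of_subset_of_nonneg (subset_univ O)
        fun x _ _ => pk_nonneg S r j v x) (hsumpk v j hj)
    have hstep : ∀ j, j ≤ 4 * L → Φ (j + 1) ≤ Φ j + m := fun j hj => by
      rw [hΦ, hm]
      exact mass_step S r hr1 hCl.hi O β (3 / 2) hβ0.le hCl.cr v j (hsumpk v j hj)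
    have htel : ∀ n, n ≤ L → ∑ l ∈ Ico L (L + n), (Φ (2 * l - 1) - Φ (2 * l)) ≤
        Φ (2 * L - 1) + n * m - Φ (2 * (L + n) - 1) := by
      intro n
      induction n with
      | zero =>
        intro _
        simp
      | succ n ih =>
        intro hn
        rw [show L + (n + 1) = L + n + 1 by ring, Finset.sum_Ico_succ_top (by omega)]
        have h1 := ih (by omega)
        have h2 := hstep (2 * (L + n)) (by omega)
        rw [show 2 * (L + n + 1) - 1 = 2 * (L + n) + 1 by omega]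
        push_cast
        linarith
    have h1 : ∑ x ∈ O, (k0 S r L v x - k1 S r L v x) =
        (∑ l ∈ Ico L (2 * L), (Φ (2 * l) - Φ (2 * l - 1))) / L := by
      simp_rw [hkm]
      rw [← Finset.sum_div, Finset.sum_comm, hΦ]
      congr 1
      refine Finset.sum_congr rfl fun l _ => ?_
      rw [Finset.sum_sub_distrib]
    rw [h1, abs_div, abs_of_pos hLpos, div_le_iff₀ hLpos]
    have h2 : ∀ l ∈ Ico L (2 * L), |Φ (2 * l) - Φ (2 * l - 1)| ≤
        2 * m + (Φ (2 * l - 1) - Φ (2 * l)) := by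
      intro l hl
      rw [mem_Ico] at hl
      have h3 := hstep (2 * l - 1) (by omega)
      rw [show 2 * l - 1 + 1 = 2 * l by omega] at h3
      rw [abs_le]
      constructor <;> linarith
    have h3 := htel L le_rfl
    rw [show L + L = 2 * L by ring] at h3
    have h4 := hΦ1 (2 * L - 1) (by omega)
    have h5 := hΦ0 (2 * (2 * L) - 1)
    have h6 : 9 / (r : ℝ) ≤ 3 * e / 16 := by
      have h7 : 48 / e ≤ r := le_trans hA7 hrlo
      rw [div_le_iff₀ he] at h7
      rw [div_le_div_iff₀ hrpos (by norm_num)]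
      nlinarith
    have h7 : 6 ≤ e * L := by
      rw [div_le_iff₀ he] at hLe
      linarith
    have h8 : 3 * m ≤ 3 * e / 16 + 3 * e / 16 := by
      have h9 : 3 * m = 9 / r + 9 / 2 * β := by
        rw [hm]
        ring
      rw [h9, hβ]
      linarith
    calc |∑ l ∈ Ico L (2 * L), (Φ (2 * l) - Φ (2 * l - 1))|
        ≤ ∑ l ∈ Ico L (2 * L), |Φ (2 * l) - Φ (2 * l - 1)| := Finset.abs_sum_le_sum_abs _ _
      _ ≤ ∑ l ∈ Ico L (2 * L), (2 * m + (Φ (2 * l - 1) - Φ (2 * l))) := Finset.sum_le_sum h2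
      _ = 2 * m * L + ∑ l ∈ Ico L (2 * L), (Φ (2 * l - 1) - Φ (2 * l)) := by
          rw [Finset.sum_add_distrib, Finset.sum_const, nsmul_eq_mul, hcardI]
          ring
      _ ≤ 3 * m * L + 3 / 2 := by linarith
      _ ≤ e * L := by nlinarith
  · intro x
    have h1 : (univ.filter fun v => k0 S r L v x + k1 S r L v x ≠ 0) =
        univ.filter fun v => k0 S r L x v + k1 S r L x v ≠ 0 := by
      ext v
      simp only [mem_filter, mem_univ, true_and, hkk]
      simp_rw [hpks _ v x]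
    rw [h1]
    exact hsupp x

end Pool.Agent.Work.MP_db9399_sg.helper48
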